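import Mathlib

set_option autoImplicit false

/-! # Simultaneous approximation and Euler's function -/

namespace Pool.Agent.Q34.CL

open Finset

/-- Dirichlet's theorem on simultaneous approximation, for fractions with one denominator. -/
theorem dirichlet {r : ℕ} (n Q : ℕ) (hn : 0 < n) (hQ : 0 < Q) (a : Fin r → ℤ) :
    ∃ t : ℕ, 0 < t ∧ t ≤ Q ^ r ∧ ∃ c : Fin r → ℤ, ∀ j, |(t : ℤ) * a j - n * c j| * Q ≤ n := by
  classical
  have hn' : (0 : ℤ) < n := by exact_mod_cast hn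
  have hQ' : (0 : ℤ) < Q := by exact_mod_cast hQ
  let ρ : ℕ → Fin r → ℤ := fun s j => ((s : ℤ) * a j) % n
  have hρ0 : ∀ s j, 0 ≤ ρ s j := fun s j => Int.emod_nonneg _ hn'.ne'
  have hρn : ∀ s j, ρ s j < n := fun s j => Int.emod_lt_of_pos _ hn'
  let box : ℕ → Fin r → Fin Q := fun s j => ⟨(ρ s j * Q / n).toNat, by
    have h1 : ρ s j * Q / n < Q := by
      rw [Int.ediv_lt_iff_lt_mul hn']
      have := hρn s j
      nlinarith
    have h2 : 0 ≤ ρ s j * Q / n := Int.ediv_nonneg (mul_nonneg (hρ0 s j) hQ'.le) hn'.le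
    omega⟩
  have hcard : (Finset.univ : Finset (Fin r → Fin Q)).card < (Finset.range (Q ^ r + 1)).card := by
    rw [Finset.card_univ, Fintype.card_fun, Fintype.card_fin, Fintype.card_fin, card_range]
    omega
  obtain ⟨s, hs, s', hs', hne, hbox⟩ := Finset.exists_ne_map_eq_of_card_lt_of_maps_to hcard
    (f := box) (fun _ _ => Finset.mem_univ _)
  rw [Finset.mem_range] at hs hs'
  wlog hlt : s < s' generalizing s s'
  · exact this s' hs' s hs hne.symm hbox.symm (by omega)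
  refine ⟨s' - s, by omega, by omega, fun j => (s' : ℤ) * a j / n - (s : ℤ) * a j / n, fun j => ?_⟩
  have h1 : ((s' - s : ℕ) : ℤ) = (s' : ℤ) - s := by omega
  have h2 : ((s' - s : ℕ) : ℤ) * a j - n * ((s' : ℤ) * a j / n - (s : ℤ) * a j / n) =
      ρ s' j - ρ s j := by
    have e1 := Int.emod_add_mul_ediv ((s' : ℤ) * a j) n
    have e2 := Int.emod_add_mul_ediv ((s : ℤ) * a j) n
    rw [h1]
    show _ = ((s' : ℤ) * a j) % n - ((s : ℤ) * a j) % n
    linear_combination e2 - e1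
  rw [h2]
  have h3 : ρ s j * Q / n = ρ s' j * Q / n := by
    have h4 := congrArg (fun f : Fin r → Fin Q => ((f j : Fin Q) : ℕ)) hbox
    simp only [box] at h4
    have h5 : 0 ≤ ρ s j * Q / n := Int.ediv_nonneg (mul_nonneg (hρ0 s j) hQ'.le) hn'.le
    have h6 : 0 ≤ ρ s' j * Q / n := Int.ediv_nonneg (mul_nonneg (hρ0 s' j) hQ'.le) hn'.le
    omega
  have e3 := Int.emod_add_mul_ediv (ρ s j * Q) n
  have e4 := Int.emod_add_mul_ediv (ρ s' j * Q) n
  have b1 := Int.emod_nonneg (ρ s j * Q) hn'.ne'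
  have b2 := Int.emod_lt_of_pos (ρ s j * Q) hn'
  have b3 := Int.emod_nonneg (ρ s' j * Q) hn'.ne'
  have b4 := Int.emod_lt_of_pos (ρ s' j * Q) hn'
  rw [h3] at e3
  rcases abs_cases (ρ s' j - ρ s j) with ⟨h, _⟩ | ⟨h, _⟩ <;> rw [h] <;> nlinarith

/-- the product of `1 - 1 / p` over distinct integers `p ≥ 2` -/
theorem prod_one_sub_inv (S : Finset ℕ) (hS : ∀ p ∈ S, 2 ≤ p) :
    1 ≤ (∏ p ∈ S, (1 - (p : ℚ)⁻¹)) * (S.card + 1) := by
  classical
  induction hc : S.card generalizing S with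
  | zero =>
    rw [Finset.card_eq_zero] at hc
    subst hc
    simp
  | succ c ih =>
    have hne : S.Nonempty := by
      rw [← Finset.card_pos]
      omega
    set m := S.max' hne with hm
    have hmS : m ∈ S := S.max'_mem hne
    have hcard : (S.erase m).card = c := by rw [Finset.card_erase_of_mem hmS]; omega
    have h1 := ih (S.erase m) (fun p hp => hS p (Finset.mem_of_mem_erase hp)) hcard
    -- the maximum is at least c + 2
    have hmc : c + 2 ≤ m := by
      have hsub : S ⊆ Finset.Icc 2 m := by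
        intro p hp
        rw [Finset.mem_Icc]
        exact ⟨hS p hp, S.le_max' p hp⟩
      have := Finset.card_le_card hsub
      rw [Nat.card_Icc, hc] at this
      have h2 := hS m hmS
      omega
    rw [← Finset.mul_prod_erase S _ hmS]
    have hm0 : (0 : ℚ) < m := by
      have : 0 < m := by omega
      exact_mod_cast this
    have hmc' : (c : ℚ) + 2 ≤ m := by exact_mod_cast hmc
    have h3 : (c + 1 : ℚ) / (c + 2) ≤ 1 - (m : ℚ)⁻¹ := by
      have : (m : ℚ)⁻¹ ≤ ((c : ℚ) + 2)⁻¹ := inv_anti₀ (by positivity) hmc'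
      have h4 : (c + 1 : ℚ) / (c + 2) = 1 - ((c : ℚ) + 2)⁻¹ := by field_simp; ring
      rw [h4]
      linarith
    set pr := ∏ p ∈ S.erase m, (1 - (p : ℚ)⁻¹) with hpr
    have hpr0 : 0 ≤ pr := by
      refine Finset.prod_nonneg fun p hp => ?_
      have := hS p (Finset.mem_of_mem_erase hp)
      have h5 : (2 : ℚ) ≤ p := by exact_mod_cast this
      have h6 : (p : ℚ)⁻¹ ≤ (2 : ℚ)⁻¹ := inv_anti₀ (by norm_num) h5
      have h7 : (2 : ℚ)⁻¹ ≤ 1 := by norm_num
      linarith
    have h8 : (c + 1 : ℚ) / (c + 2) * (pr * (((c + 1 : ℕ) : ℚ) + 1)) ≤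
        (1 - (m : ℚ)⁻¹) * (pr * (((c + 1 : ℕ) : ℚ) + 1)) :=
      mul_le_mul_of_nonneg_right h3 (by positivity)
    have h9 : (c + 1 : ℚ) / (c + 2) * (pr * (((c + 1 : ℕ) : ℚ) + 1)) = pr * (c + 1) := by
      push_cast
      field_simp
      ring
    calc (1 : ℚ) ≤ pr * (c + 1) := h1
      _ ≤ (1 - (m : ℚ)⁻¹) * (pr * (((c + 1 : ℕ) : ℚ) + 1)) := by rw [← h9]; exact h8
      _ = (1 - (m : ℚ)⁻¹) * pr * (((c + 1 : ℕ) : ℚ) + 1) := by ring

/-- `n ≤ φ n * (log₂ n + 1)` -/
theorem le_totient_mul_log (n : ℕ) (hn : 0 < n) : n ≤ n.totient * (Nat.log 2 n + 1) := by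
  have h1 := Nat.totient_eq_mul_prod_factors n
  have h2 := prod_one_sub_inv n.primeFactors (fun p hp => (Nat.prime_of_mem_primeFactors hp).two_le)
  have h3 : n.primeFactors.card ≤ Nat.log 2 n := by
    apply Nat.le_log_of_pow_le (by norm_num)
    calc 2 ^ n.primeFactors.card = ∏ _p ∈ n.primeFactors, 2 := by rw [Finset.prod_const]
      _ ≤ ∏ p ∈ n.primeFactors, p :=
          Finset.prod_le_prod' fun p hp => (Nat.prime_of_mem_primeFactors hp).two_le
      _ ≤ n := Nat.le_of_dvd hn (Nat.prod_primeFactors_dvd n)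
  have hn' : (0 : ℚ) < n := by exact_mod_cast hn
  have h4 : (n : ℚ) ≤ (n.totient : ℚ) * (n.primeFactors.card + 1) := by
    rw [h1]
    calc (n : ℚ) = n * 1 := by ring
      _ ≤ n * ((∏ p ∈ n.primeFactors, (1 - (p : ℚ)⁻¹)) * (n.primeFactors.card + 1)) :=
          mul_le_mul_of_nonneg_left h2 hn'.le
      _ = _ := by ring
  have h5 : n ≤ n.totient * (n.primeFactors.card + 1) := by exact_mod_cast h4
  exact h5.trans (Nat.mul_le_mul_left _ (by omega))

end Pool.Agent.Q34.CL
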