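import Mathlib
import Pool.Agent.Q34.CL.Dir

set_option autoImplicit false

/-! # The bound for the order of the roots of unity -/

namespace Pool.Agent.Q34.CL

open Finset

/-- `log₂ m + 1 ≤ 3 r m ^ (1 / (2 r))` -/
theorem log_bound (r m : ℕ) (hr : 1 ≤ r) (hm : 0 < m) :
    ((Nat.log 2 m : ℕ) : ℝ) + 1 ≤ 3 * r * (m : ℝ) ^ (1 / (2 * (r : ℝ))) := by
  have hr' : (1 : ℝ) ≤ r := by exact_mod_cast hr
  have hm1 : (1 : ℝ) ≤ m := by exact_mod_cast hm
  have hm0 : (0 : ℝ) < m := by linarith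
  set y : ℝ := (m : ℝ) ^ (1 / (2 * (r : ℝ))) with hy
  have hy1 : 1 ≤ y := Real.one_le_rpow hm1 (by positivity)
  have hy0 : 0 < y := by linarith
  have hlogy : Real.log m = 2 * r * Real.log y := by
    rw [hy, Real.log_rpow hm0]
    field_simp
  have h1 : Real.log y ≤ y - 1 := Real.log_le_sub_one_of_pos hy0
  have h2 : ((Nat.log 2 m : ℕ) : ℝ) * Real.log 2 ≤ Real.log m := by
    rw [← Real.log_pow]
    apply Real.log_le_log (by positivity)
    exact_mod_cast Nat.pow_log_le_self 2 hm.ne'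
  have h3 : (2 : ℝ) / 3 ≤ Real.log 2 := by
    have := Real.log_two_gt_d9
    linarith
  have h4 : ((Nat.log 2 m : ℕ) : ℝ) * (2 / 3) ≤ 2 * r * (y - 1) := by
    calc ((Nat.log 2 m : ℕ) : ℝ) * (2 / 3) ≤ ((Nat.log 2 m : ℕ) : ℝ) * Real.log 2 :=
          mul_le_mul_of_nonneg_left h3 (Nat.cast_nonneg _)
      _ ≤ Real.log m := h2
      _ = 2 * r * Real.log y := hlogy
      _ ≤ 2 * r * (y - 1) := mul_le_mul_of_nonneg_left h1 (by positivity)
  nlinarith

/-- the explicit bound -/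
theorem numeric (r d D m : ℕ) (hr : 1 ≤ r) (hd : 1 ≤ d) (hD : 1 ≤ D) (hm : 0 < m)
    (h : m ≤ (2 * d * D * m / m.totient + 1) ^ r) : m ≤ (9 * r * d * D) ^ (2 * r) := by
  have hφ : 0 < m.totient := Nat.totient_pos.2 hm
  have h1 : 2 * d * D * m / m.totient ≤ 2 * d * D * (Nat.log 2 m + 1) := by
    apply Nat.div_le_of_le_mul
    calc 2 * d * D * m ≤ 2 * d * D * (m.totient * (Nat.log 2 m + 1)) :=
          Nat.mul_le_mul_left _ (le_totient_mul_log m hm)
      _ = m.totient * (2 * d * D * (Nat.log 2 m + 1)) := by ring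
  have hdD : 1 ≤ d * D * (Nat.log 2 m + 1) := by
    have : 0 < d * D * (Nat.log 2 m + 1) := by positivity
    omega
  have h2 : 2 * d * D * m / m.totient + 1 ≤ 3 * (d * D * (Nat.log 2 m + 1)) := by
    calc 2 * d * D * m / m.totient + 1 ≤ 2 * d * D * (Nat.log 2 m + 1) + 1 := by omega
      _ = 2 * (d * D * (Nat.log 2 m + 1)) + 1 := by ring
      _ ≤ 3 * (d * D * (Nat.log 2 m + 1)) := by omega
  have h3 : m ≤ (3 * (d * D * (Nat.log 2 m + 1))) ^ r := h.trans (Nat.pow_le_pow_left h2 r)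
  have hm0 : (0 : ℝ) < m := by exact_mod_cast hm
  have hr0 : (r : ℝ) ≠ 0 := by
    have : (1 : ℝ) ≤ r := by exact_mod_cast hr
    linarith
  set y : ℝ := (m : ℝ) ^ (1 / (2 * (r : ℝ))) with hy
  have hy0 : 0 < y := Real.rpow_pos_of_pos hm0 _
  have hypow : y ^ r * y ^ r = m := by
    rw [← pow_add, hy, ← Real.rpow_natCast, ← Real.rpow_mul hm0.le]
    have : 1 / (2 * (r : ℝ)) * ((r + r : ℕ) : ℝ) = 1 := by
      push_cast
      field_simp
      ring
    rw [this, Real.rpow_one]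
  have h4 : (m : ℝ) ≤ (9 * r * d * D : ℝ) ^ r * y ^ r := by
    have h5 : ((m : ℕ) : ℝ) ≤ (3 * (d * D * ((Nat.log 2 m : ℕ) + 1) : ℝ)) ^ r := by
      exact_mod_cast h3
    refine h5.trans ?_
    rw [← mul_pow]
    refine pow_le_pow_left₀ (by positivity) ?_ r
    have h6 := log_bound r m hr hm
    calc (3 * (d * D * ((Nat.log 2 m : ℕ) + 1) : ℝ)) ≤ 3 * (d * D * (3 * r * y)) := by
          have : (0 : ℝ) ≤ d * D := by positivity
          have := mul_le_mul_of_nonneg_left h6 this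
          linarith
      _ = 9 * r * d * D * y := by ring
  have h7 : y ^ r ≤ (9 * r * d * D : ℝ) ^ r := by
    have h8 : y ^ r * y ^ r ≤ (9 * r * d * D : ℝ) ^ r * y ^ r := by rw [hypow]; exact h4
    exact le_of_mul_le_mul_right h8 (by positivity)
  have h9 : (m : ℝ) ≤ (9 * r * d * D : ℝ) ^ (2 * r) := by
    calc (m : ℝ) = y ^ r * y ^ r := hypow.symm
      _ ≤ (9 * r * d * D : ℝ) ^ r * (9 * r * d * D : ℝ) ^ r :=
          mul_le_mul h7 h7 (by positivity) (by positivity)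
      _ = (9 * r * d * D : ℝ) ^ (2 * r) := by rw [← pow_add]; congr 1; ring
  exact_mod_cast h9

end Pool.Agent.Q34.CL
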