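import Mathlib
import Pool.Agent.H533R3.SL.Asm
import Pool.Agent.Q34.CL.Dir

set_option autoImplicit false

/-! # Sums of few roots of unity times vectors over a field: the descent step -/

namespace Pool.Agent.Q34.CL

open Finset Pool.Agent.H533R3.SL

variable {n r : ℕ}

/-- the vector `∑ j ∈ J, u j V j` -/
def comb {K L : Type} [Field K] [Field L] [Algebra K L] (J : Finset (Fin r)) (u : Fin r → L)
    (V : Fin r → Fin (n + 1) → K) (i : Fin (n + 1)) : L :=
  ∑ j ∈ J, u j * algebraMap K L (V j i)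

theorem aeval_hom_smul {k R : Type} [Field k] [CommRing R] [Algebra k R] {e : ℕ}
    (F : MvPolynomial (Fin (n + 1)) k) (hF : F.IsHomogeneous e) (c : R) (x : Fin (n + 1) → R) :
    MvPolynomial.aeval (fun a => c * x a) F = c ^ e * MvPolynomial.aeval x F := by
  rw [MvPolynomial.aeval_def, MvPolynomial.aeval_def, MvPolynomial.eval₂_eq',
    MvPolynomial.eval₂_eq', Finset.mul_sum]
  refine Finset.sum_congr rfl fun m hm => ?_
  have h1 : ∑ j, m j = e := by
    have := hF (MvPolynomial.mem_support_iff.1 hm)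
    rw [← this, Finsupp.weight_apply, Finsupp.sum_fintype _ _ (by simp)]
    simp
  simp only [mul_pow, Finset.prod_mul_distrib, Finset.prod_pow_eq_pow_sum, h1]
  ring

/-- a unit modulo a divisor of `N` has an inverse prime to `N` -/
theorem exists_inverse (N N' t' : ℕ) (hN : 0 < N) (hdvd : N' ∣ N) (hco : t'.Coprime N') :
    ∃ u : ℕ, u.Coprime N ∧ (N' : ℤ) ∣ (u : ℤ) * t' - 1 := by
  have : NeZero N := ⟨hN.ne'⟩
  obtain ⟨v, hv⟩ := ZMod.unitsMap_surjective hdvd (ZMod.unitOfCoprime t' hco)⁻¹
  refine ⟨(v : ZMod N).val, ZMod.val_coe_unit_coprime v, ?_⟩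
  rw [← ZMod.intCast_zmod_eq_zero_iff_dvd, Int.cast_sub, Int.cast_mul, Int.cast_natCast,
    Int.cast_natCast, Int.cast_one, sub_eq_zero]
  have h1 : (((v : ZMod N).val : ℕ) : ZMod N') = ((ZMod.unitOfCoprime t' hco)⁻¹ : (ZMod N')ˣ) := by
    rw [← hv, ZMod.unitsMap_val, ZMod.natCast_val]
  rw [h1]
  have h2 : ((t' : ℕ) : ZMod N') = (ZMod.unitOfCoprime t' hco : (ZMod N')ˣ) :=
    (ZMod.coe_unitOfCoprime t' hco).symm
  rw [h2, ← Units.val_mul, inv_mul_cancel, Units.val_one]

/-- degrees of roots of unity over an extension generated by an element of degree at most `g` -/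
theorem degree_bound {K L : Type} [Field K] [Field L] [Algebra K L] (θ ω : L) (g : ℕ)
    (hg : 0 < g) (hθ : θ ^ g = 1) (hω : IsIntegral K ω) :
    (minpoly K ω).natDegree ≤ g * (minpoly (IntermediateField.adjoin K {θ}) ω).natDegree := by
  have hθi : IsIntegral K θ := ⟨Polynomial.X ^ g - 1, Polynomial.monic_X_pow_sub_C 1 hg.ne',
    by simp [hθ]⟩
  set K' := IntermediateField.adjoin K {θ} with hK'
  have hfd : FiniteDimensional K K' := IntermediateField.adjoin.finiteDimensional hθi
  have hωi : IsIntegral K' ω := hω.tower_top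
  have hfd2 : FiniteDimensional K' (IntermediateField.adjoin K' {ω}) :=
    IntermediateField.adjoin.finiteDimensional hωi
  have hfd3 : FiniteDimensional K (IntermediateField.adjoin K' {ω}) :=
    FiniteDimensional.trans K K' _
  have h1 : Module.finrank K K' ≤ g := by
    rw [hK', IntermediateField.adjoin.finrank hθi]
    have h2 := minpoly.degree_le_of_ne_zero K θ (p := Polynomial.X ^ g - 1)
      (Polynomial.monic_X_pow_sub_C 1 hg.ne').ne_zero (by simp [hθ])
    have h3 := Polynomial.natDegree_le_natDegree h2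
    refine h3.trans (le_of_eq ?_)
    have := Polynomial.natDegree_X_pow_sub_C (n := g) (r := (1 : K))
    simpa using this
  have h2 : Module.finrank K' (IntermediateField.adjoin K' {ω}) = (minpoly K' ω).natDegree :=
    IntermediateField.adjoin.finrank hωi
  have h3 : Module.finrank K K' * Module.finrank K' (IntermediateField.adjoin K' {ω}) =
      Module.finrank K (IntermediateField.adjoin K' {ω}) := Module.finrank_mul_finrank _ _ _
  have h4 : (minpoly K ω).natDegree ≤ Module.finrank K (IntermediateField.adjoin K' {ω}) := by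
    let x : IntermediateField.adjoin K' {ω} := IntermediateField.AdjoinSimple.gen K' ω
    have : IsScalarTower K (IntermediateField.adjoin K' {ω}) L :=
      IsScalarTower.of_algebraMap_eq fun _ => rfl
    have h5 : minpoly K (algebraMap (IntermediateField.adjoin K' {ω}) L x) = minpoly K x :=
      minpoly.algebraMap_eq (algebraMap (IntermediateField.adjoin K' {ω}) L).injective x
    have h6 : algebraMap (IntermediateField.adjoin K' {ω}) L x = ω :=
      IntermediateField.AdjoinSimple.algebraMap_gen K' ω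
    rw [h6] at h5
    rw [h5]
    exact minpoly.natDegree_le x
  rw [← h3, h2] at h4
  exact h4.trans (Nat.mul_le_mul_right _ h1)

/-- **The descent step.** -/
theorem step {k K L : Type} [Field k] [Field K] [Field L] [Algebra k K] [Algebra K L]
    [Algebra k L] [IsScalarTower k K L]
    (FF : Set (MvPolynomial (Fin (n + 1)) k)) (d : ℕ)
    (hFF : ∀ F ∈ FF, ∃ e, e ≤ d ∧ F.IsHomogeneous e)
    (G : MvPolynomial (Fin (n + 1)) k) (hGh : ∃ e, G.IsHomogeneous e)
    (hG : ∀ (c : Fin r → Fin (n + 1) → L) (l : Fin r → ℕ),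
        (∀ F ∈ FF, MvPolynomial.aeval (cur c l) F = 0) →
        (∃ i i', cur c l i * Polynomial.C (∑ j, c j i') ≠
          cur c l i' * Polynomial.C (∑ j, c j i)) →
        MvPolynomial.aeval (fun i => ∑ j, c j i) G = 0)
    (D : ℕ) (N : ℕ) (hN : 0 < N) (ζ : L) (hζ : IsPrimitiveRoot ζ N)
    (hK : ∀ ω : L, IsPrimitiveRoot ω N → N.totient ≤ D * (minpoly K ω).natDegree)
    (Q : ℕ) (hQ : 2 * d * D * N < Q * N.totient)
    (a : Fin r → ℤ) (J : Finset (Fin r)) (V : Fin r → Fin (n + 1) → K)
    (hx0 : comb J (fun j => ζ ^ (a j)) V ≠ 0)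
    (hxF : ∀ F ∈ FF, MvPolynomial.aeval (comb J (fun j => ζ ^ (a j)) V) F = 0)
    (hxG : MvPolynomial.aeval (comb J (fun j => ζ ^ (a j)) V) G ≠ 0) :
    ∃ g, 0 < g ∧ g ∣ N ∧ g ≤ Q ^ r ∧ ∃ (J' : Finset (Fin r)) (b : Fin r → ℤ) (c : L), J' ⊆ J ∧
      c ≠ 0 ∧ ∀ i, comb J' (fun j => (ζ ^ (N / g)) ^ (b j)) V i =
        c * comb J (fun j => ζ ^ (a j)) V i := by
  classical
  have hQ0 : 0 < Q := by
    rcases Nat.eq_zero_or_pos Q with h | h
    · rw [h, zero_mul] at hQ
      omega
    · exact h
  obtain ⟨t, ht, htQ, cc, hcc⟩ := dirichlet N Q hN hQ0 a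
  obtain ⟨g, t', N', hg0, hco, ht', hN'⟩ := Nat.exists_coprime' (m := t) (n := N) (Nat.gcd_pos_of_pos_left N ht)
  have hg : 0 < g := hg0
  have hgN : g ∣ N := ⟨N', by rw [hN']; ring⟩
  have hgt : g ∣ t := ⟨t', by rw [ht']; ring⟩
  have hgQ : g ≤ Q ^ r := (Nat.le_of_dvd ht hgt).trans htQ
  have hNdiv : N / g = N' := by
    rw [hN']
    exact Nat.mul_div_cancel _ hg
  have hN'0 : 0 < N' := by
    rcases Nat.eq_zero_or_pos N' with h | h
    · rw [hN', h, zero_mul] at hN
      omega
    · exact h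
  have hN'N : N' ∣ N := ⟨g, hN'⟩
  obtain ⟨u, huN, hu⟩ := exists_inverse N N' t' hN hN'N hco
  obtain ⟨w, hw⟩ := hu
  -- the small exponents
  let s : Fin r → ℤ := fun j => t' * a j - N' * cc j
  have hs : ∀ j, |s j| * (g * Q) ≤ N := by
    intro j
    have h1 : (t : ℤ) * a j - N * cc j = g * s j := by
      have e1 : (t : ℤ) = t' * g := by exact_mod_cast ht'
      have e2 : (N : ℤ) = N' * g := by exact_mod_cast hN'
      rw [e1, e2]
      ring
    have h2 := hcc j
    rw [h1, abs_mul, abs_of_nonneg (by positivity : (0 : ℤ) ≤ g)] at h2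
    calc |s j| * ((g : ℤ) * Q) = g * |s j| * Q := by ring
      _ ≤ N := h2
  set S : ℕ := N / (g * Q) with hS
  have hgQ0 : 0 < g * Q := Nat.mul_pos hg hQ0
  have hsS : ∀ j, |s j| ≤ (S : ℤ) := by
    intro j
    have h1 : (s j).natAbs * (g * Q) ≤ N := by
      have := hs j
      zify
      exact this
    have h2 : (s j).natAbs ≤ S := (Nat.le_div_iff_mul_le hgQ0).2 h1
    rw [Int.abs_eq_natAbs]
    exact_mod_cast h2
  have hSN : S * (g * Q) ≤ N := Nat.div_mul_le_self _ _
  -- the roots of unity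
  have hζ0 : ζ ≠ 0 := hζ.ne_zero hN.ne'
  obtain ⟨ω, hω⟩ : ∃ ω : L, ω = ζ ^ u := ⟨_, rfl⟩
  have hωN : IsPrimitiveRoot ω N := by
    rw [hω]
    exact hζ.pow_of_coprime u huN
  have hω0 : ω ≠ 0 := by
    rw [hω]
    exact pow_ne_zero _ hζ0
  obtain ⟨θ, hθ⟩ : ∃ θ : L, θ = ζ ^ N' := ⟨_, rfl⟩
  have hθg : θ ^ g = 1 := by
    rw [hθ, ← pow_mul, ← hN']
    exact hζ.pow_eq_one
  have hθ0 : θ ≠ 0 := by
    rw [hθ]
    exact pow_ne_zero _ hζ0
  have hab : ∀ j, ∃ b : ℤ, ζ ^ (a j) = ω ^ (s j) * θ ^ b := by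
    intro j
    refine ⟨u * cc j - w * a j, ?_⟩
    rw [hω, hθ, ← zpow_natCast, ← zpow_natCast, ← zpow_mul, ← zpow_mul, ← zpow_add₀ hζ0]
    congr 1
    have h1 : s j = t' * a j - N' * cc j := rfl
    rw [h1]
    linear_combination (-a j) * hw
  choose b hb using hab
  let l : Fin r → ℕ := fun j => (s j + S).toNat
  have hl : ∀ j, (l j : ℤ) = s j + S := by
    intro j
    have := (abs_le.1 (hsS j)).1
    exact Int.toNat_of_nonneg (by linarith)
  have hl2 : ∀ j, l j ≤ 2 * S := by
    intro j
    have h1 := (abs_le.1 (hsS j)).2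
    have h2 := hl j
    omega
  have hωl : ∀ j, ω ^ (l j) = ω ^ S * ω ^ (s j) := by
    intro j
    rw [← zpow_natCast ω (l j), hl, zpow_add₀ hω0, zpow_natCast, mul_comm]
  -- the intermediate field
  set K' := IntermediateField.adjoin K {θ} with hK'
  let θ' : K' := IntermediateField.AdjoinSimple.gen K θ
  have hθ' : algebraMap K' L θ' = θ := IntermediateField.AdjoinSimple.algebraMap_gen K θ
  have htow : IsScalarTower k K' L := IsScalarTower.of_algebraMap_eq fun _ => rfl
  have htow2 : IsScalarTower k K' (Polynomial L) := IsScalarTower.of_algebraMap_eq fun _ => rfl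
  let p : Fin (n + 1) → Polynomial K' := fun i =>
    ∑ j ∈ J, Polynomial.C (θ' ^ (b j) * algebraMap K K' (V j i)) * Polynomial.X ^ (l j)
  have hpdeg : ∀ i, (p i).natDegree ≤ 2 * S := by
    intro i
    refine Polynomial.natDegree_sum_le_of_forall_le _ _ fun j _ => ?_
    exact (Polynomial.natDegree_C_mul_X_pow_le _ _).trans (hl2 j)
  have hpω : ∀ i, Polynomial.aeval ω (p i) = ω ^ S * comb J (fun j => ζ ^ (a j)) V i := by
    intro i
    unfold comb
    rw [map_sum, Finset.mul_sum]
    refine Finset.sum_congr rfl fun j _ => ?_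
    rw [map_mul, Polynomial.aeval_C, map_pow, Polynomial.aeval_X, map_mul, map_zpow₀, hθ',
      ← IsScalarTower.algebraMap_apply K K' L, hωl]
    show _ = ω ^ S * (ζ ^ (a j) * algebraMap K L (V j i))
    rw [hb]
    ring
  -- the polynomials vanish
  have hf : ∀ F ∈ FF, MvPolynomial.aeval p F = 0 := by
    intro F hF
    obtain ⟨e, hed, hFe⟩ := hFF F hF
    by_contra hne
    have h1 : Polynomial.aeval ω (MvPolynomial.aeval p F) = 0 := by
      have h2 := MvPolynomial.comp_aeval_apply (R := k) p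
        ((Polynomial.aeval ω : Polynomial K' →ₐ[K'] L).restrictScalars k) F
      have h3 : Polynomial.aeval ω (MvPolynomial.aeval p F) =
          MvPolynomial.aeval (fun i => Polynomial.aeval ω (p i)) F := h2
      rw [h3]
      simp_rw [hpω]
      rw [aeval_hom_smul F hFe, hxF F hF, mul_zero]
    have h2 : (minpoly K' ω).natDegree ≤ (MvPolynomial.aeval p F).natDegree :=
      Polynomial.natDegree_le_natDegree (minpoly.degree_le_of_ne_zero K' ω hne h1)
    have h3 : (MvPolynomial.aeval p F).natDegree ≤ d * (2 * S) := by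
      have h4 : MvPolynomial.aeval p F =
          MvPolynomial.aeval p (MvPolynomial.map (algebraMap k K') F) := by
        rw [MvPolynomial.aeval_map_algebraMap]
      rw [h4]
      refine MvPolynomial.aeval_natDegree_le _ ?_ p hpdeg
      exact ((hFe.map (algebraMap k K')).totalDegree_le).trans hed
    have hωi : IsIntegral K ω := ⟨Polynomial.X ^ N - 1,
      Polynomial.monic_X_pow_sub_C 1 hN.ne', by simp [hωN.pow_eq_one]⟩
    have h4 := degree_bound θ ω g hg hθg hωi
    have h5 := hK ω hωN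
    have h6 : N.totient ≤ D * (g * (d * (2 * S))) :=
      h5.trans (Nat.mul_le_mul_left _ (h4.trans (Nat.mul_le_mul_left _ (h2.trans h3))))
    have h7 : Q * N.totient ≤ 2 * d * D * N := by
      calc Q * N.totient ≤ Q * (D * (g * (d * (2 * S)))) := Nat.mul_le_mul_left _ h6
        _ = 2 * d * D * (S * (g * Q)) := by ring
        _ ≤ 2 * d * D * N := Nat.mul_le_mul_left _ hSN
    omega
  -- the curve over `L`
  let c : Fin r → Fin (n + 1) → L := fun j i =>
    if j ∈ J then ω ^ (l j) * (θ ^ (b j) * algebraMap K L (V j i)) else 0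
  let Ψ : Polynomial K' →ₐ[K'] Polynomial L :=
    Polynomial.aeval (Polynomial.C ω * Polynomial.X)
  have hcur : ∀ i, cur c l i = Ψ (p i) := by
    intro i
    show cur c l i = Polynomial.aeval (Polynomial.C ω * Polynomial.X) (p i)
    unfold cur
    rw [map_sum, ← Finset.sum_filter_add_sum_filter_not Finset.univ (fun j => j ∈ J),
      Finset.filter_mem_eq_inter, Finset.univ_inter]
    have h1 : ∑ j ∈ Finset.univ.filter (fun j => j ∉ J),
        Polynomial.C (c j i) * (Polynomial.X : Polynomial L) ^ (l j) = 0 := by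
      refine Finset.sum_eq_zero fun j hj => ?_
      rw [Finset.mem_filter] at hj
      simp only [c, if_neg hj.2, Polynomial.C_0, zero_mul]
    rw [h1, add_zero]
    refine Finset.sum_congr rfl fun j hj => ?_
    rw [map_mul, map_pow, Polynomial.aeval_X, Polynomial.aeval_C]
    simp only [c, if_pos hj]
    have h2 : algebraMap K' (Polynomial L) (θ' ^ (b j) * algebraMap K K' (V j i)) =
        Polynomial.C (θ ^ (b j) * algebraMap K L (V j i)) := by
      rw [IsScalarTower.algebraMap_apply K' L (Polynomial L), map_mul, map_zpow₀, hθ',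
        ← IsScalarTower.algebraMap_apply K K' L]
      rfl
    rw [h2, mul_pow, ← Polynomial.C_pow, Polynomial.C_mul]
    ring
  have hcurF : ∀ F ∈ FF, MvPolynomial.aeval (cur c l) F = 0 := by
    intro F hF
    have h1 : cur c l = fun i => Ψ (p i) := funext hcur
    rw [h1]
    have h2 := MvPolynomial.comp_aeval_apply (R := k) p (Ψ.restrictScalars k) F
    have h3 : Ψ (MvPolynomial.aeval p F) = MvPolynomial.aeval (fun i => Ψ (p i)) F := h2
    rw [← h3, hf F hF, map_zero]
  have hsum : ∀ i, ∑ j, c j i = ω ^ S * comb J (fun j => ζ ^ (a j)) V i := by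
    intro i
    unfold comb
    rw [Finset.mul_sum, ← Finset.sum_filter_add_sum_filter_not Finset.univ (fun j => j ∈ J),
      Finset.filter_mem_eq_inter, Finset.univ_inter]
    have h1 : ∑ j ∈ Finset.univ.filter (fun j => j ∉ J), c j i = 0 := by
      refine Finset.sum_eq_zero fun j hj => ?_
      rw [Finset.mem_filter] at hj
      simp only [c, if_neg hj.2]
    rw [h1, add_zero]
    refine Finset.sum_congr rfl fun j hj => ?_
    simp only [c, if_pos hj]
    rw [hωl, hb]
    ring
  have hconst : ∀ i i', cur c l i * Polynomial.C (∑ j, c j i') =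
      cur c l i' * Polynomial.C (∑ j, c j i) := by
    by_contra hcon
    push Not at hcon
    have h1 := hG c l hcurF hcon
    simp_rw [hsum] at h1
    obtain ⟨e, he⟩ := hGh
    rw [aeval_hom_smul G he] at h1
    exact (mul_ne_zero (pow_ne_zero _ (pow_ne_zero _ hω0)) hxG) h1
  obtain ⟨i0, hi0⟩ := Function.ne_iff.1 hx0
  rw [Pi.zero_apply] at hi0
  have hcur0 : cur c l i0 ≠ 0 := by
    intro h
    have h1 := cur_eval_one c l i0
    rw [h, Polynomial.eval_zero, hsum] at h1
    exact mul_ne_zero (pow_ne_zero _ hω0) hi0 h1.symm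
  obtain ⟨E, hE⟩ : ∃ E, (cur c l i0).coeff E ≠ 0 := by
    by_contra h
    push Not at h
    exact hcur0 (Polynomial.ext (by simpa using h))
  let J' : Finset (Fin r) := J.filter (fun j => l j = E)
  have hcoef : ∀ i, (cur c l i).coeff E = ω ^ E * comb J' (fun j => θ ^ (b j)) V i := by
    intro i
    unfold cur comb
    rw [Polynomial.finsetSum_coeff, Finset.mul_sum]
    simp_rw [Polynomial.coeff_C_mul_X_pow]
    rw [← Finset.sum_filter, ← Finset.sum_filter_add_sum_filter_not _ (fun j => j ∈ J)]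
    have h1 : ∑ j ∈ (Finset.univ.filter (fun j => E = l j)).filter (fun j => j ∉ J), c j i = 0 := by
      refine Finset.sum_eq_zero fun j hj => ?_
      rw [Finset.mem_filter] at hj
      simp only [c, if_neg hj.2]
    rw [h1, add_zero]
    have h2 : (Finset.univ.filter (fun j => E = l j)).filter (fun j => j ∈ J) = J' := by
      ext j
      simp only [J', Finset.mem_filter, Finset.mem_univ, true_and]
      constructor
      · rintro ⟨h3, h4⟩
        exact ⟨h4, h3.symm⟩
      · rintro ⟨h3, h4⟩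
        exact ⟨h4.symm, h3⟩
    rw [h2]
    refine Finset.sum_congr rfl fun j hj => ?_
    rw [Finset.mem_filter] at hj
    simp only [c, if_pos hj.1]
    rw [hj.2]
  have hy0 : comb J' (fun j => θ ^ (b j)) V i0 ≠ 0 := by
    rw [hcoef] at hE
    exact right_ne_zero_of_mul hE
  refine ⟨g, hg, hgN, hgQ, J', b, comb J' (fun j => θ ^ (b j)) V i0 /
    comb J (fun j => ζ ^ (a j)) V i0, Finset.filter_subset _ _, div_ne_zero hy0 hi0, fun i => ?_⟩
  rw [hNdiv, ← hθ]
  have h1 := congrArg (fun q => Polynomial.coeff q E) (hconst i i0)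
  simp only [Polynomial.coeff_mul_C, hcoef, hsum] at h1
  have h2 : (ω ^ E * ω ^ S) * (comb J' (fun j => θ ^ (b j)) V i *
      comb J (fun j => ζ ^ (a j)) V i0) = (ω ^ E * ω ^ S) *
      (comb J' (fun j => θ ^ (b j)) V i0 * comb J (fun j => ζ ^ (a j)) V i) := by
    linear_combination h1
  have h3 := mul_left_cancel₀ (mul_ne_zero (pow_ne_zero _ hω0) (pow_ne_zero _ hω0)) h2
  rw [div_mul_eq_mul_div, eq_div_iff hi0]
  exact h3

end Pool.Agent.Q34.CL
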