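import Mathlib
import Pool.Agent.Q34.CL.Step
import Pool.Agent.Q34.CL.Num

set_option autoImplicit false

/-! # Sums of few roots of unity times vectors over a field: descent and counting -/

namespace Pool.Agent.Q34.CL

open Finset Pool.Agent.H533R3.SL

variable {n r : ℕ}

/-- Every root of unity in `L` of order `m` has degree at least `φ(m) / D` over `K`. -/
def CycDegree (K L : Type) [Field K] [Field L] [Algebra K L] (D : ℕ) : Prop :=
  ∀ m : ℕ, 0 < m → ∀ ω : L, IsPrimitiveRoot ω m → m.totient ≤ D * (minpoly K ω).natDegree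

/-- number fields of degree at most `D` -/
theorem cycDegree_numberField (K L : Type) [Field K] [NumberField K] [Field L] [Algebra K L]
    (D : ℕ) (hD : Module.finrank ℚ K ≤ D) : CycDegree K L D := by
  intro m hm ω hω
  have hc : CharZero L := charZero_of_injective_algebraMap (algebraMap K L).injective
  have hωi : IsIntegral K ω := ⟨Polynomial.X ^ m - 1,
    Polynomial.monic_X_pow_sub_C 1 hm.ne', by simp [hω.pow_eq_one]⟩
  have h1 : (minpoly ℚ ω).natDegree = m.totient := by
    rw [← Polynomial.cyclotomic_eq_minpoly_rat hω hm, Polynomial.natDegree_cyclotomic]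
  set E := IntermediateField.adjoin K {ω} with hE
  have hfd : FiniteDimensional K E := IntermediateField.adjoin.finiteDimensional hωi
  have hfd3 : FiniteDimensional ℚ E := FiniteDimensional.trans ℚ K E
  have h2 : Module.finrank K E = (minpoly K ω).natDegree := IntermediateField.adjoin.finrank hωi
  have h3 : Module.finrank ℚ K * Module.finrank K E = Module.finrank ℚ E :=
    Module.finrank_mul_finrank _ _ _
  let x : E := IntermediateField.AdjoinSimple.gen K ω
  have h6 : algebraMap E L x = ω := IntermediateField.AdjoinSimple.algebraMap_gen K ω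
  have h5 : minpoly ℚ (algebraMap E L x) = minpoly ℚ x :=
    minpoly.algebraMap_eq (algebraMap E L).injective x
  have h7 : (minpoly ℚ x).natDegree ≤ Module.finrank ℚ E := minpoly.natDegree_le x
  rw [h6] at h5
  rw [← h1, h5]
  refine h7.trans ?_
  rw [← h3, h2]
  exact Nat.mul_le_mul_right _ hD

theorem descent {k K L : Type} [Field k] [Field K] [Field L] [Algebra k K] [Algebra K L]
    [Algebra k L] [IsScalarTower k K L]
    (FF : Set (MvPolynomial (Fin (n + 1)) k)) (d : ℕ)
    (hFF : ∀ F ∈ FF, ∃ e, e ≤ d ∧ F.IsHomogeneous e)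
    (G : MvPolynomial (Fin (n + 1)) k) (hGh : ∃ e, G.IsHomogeneous e)
    (hG : ∀ (c : Fin r → Fin (n + 1) → L) (l : Fin r → ℕ),
        (∀ F ∈ FF, MvPolynomial.aeval (cur c l) F = 0) →
        (∃ i i', cur c l i * Polynomial.C (∑ j, c j i') ≠
          cur c l i' * Polynomial.C (∑ j, c j i)) →
        MvPolynomial.aeval (fun i => ∑ j, c j i) G = 0)
    (D : ℕ) (hK : CycDegree K L D) (V : Fin r → Fin (n + 1) → K) (N : ℕ) :
    ∀ (_ : 0 < N) (ζ : L) (_ : IsPrimitiveRoot ζ N) (a : Fin r → ℤ) (J : Finset (Fin r))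
    (_ : comb J (fun j => ζ ^ (a j)) V ≠ 0)
    (_ : ∀ F ∈ FF, MvPolynomial.aeval (comb J (fun j => ζ ^ (a j)) V) F = 0)
    (_ : MvPolynomial.aeval (comb J (fun j => ζ ^ (a j)) V) G ≠ 0),
    ∃ m, 0 < m ∧ m ≤ (2 * d * D * m / m.totient + 1) ^ r ∧
      ∃ (η : L) (J' : Finset (Fin r)) (b : Fin r → ℤ) (c : L), IsPrimitiveRoot η m ∧ J' ⊆ J ∧
      c ≠ 0 ∧ ∀ i, comb J' (fun j => η ^ (b j)) V i = c * comb J (fun j => ζ ^ (a j)) V i := by
  induction N using Nat.strong_induction_on with
  | _ N ih =>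
    intro hN ζ hζ a J hx0 hxF hxG
    by_cases hle : N ≤ (2 * d * D * N / N.totient + 1) ^ r
    · exact ⟨N, hN, hle, ζ, J, a, 1, hζ, Finset.Subset.refl _, one_ne_zero,
        fun i => (one_mul _).symm⟩
    push Not at hle
    have hφ : 0 < N.totient := Nat.totient_pos.2 hN
    obtain ⟨g, hg, hgN, hgQ, J', b, c, hJ, hc, hcomb⟩ := step FF d hFF G hGh hG D N hN ζ hζ
      (fun ω hω => hK N hN ω hω) (2 * d * D * N / N.totient + 1)
      (by
        rw [Nat.add_mul, one_mul]
        exact Nat.lt_div_mul_add hφ) a J V hx0 hxF hxG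
    obtain ⟨N', hN'⟩ := hgN
    have hη : IsPrimitiveRoot (ζ ^ (N / g)) g := hζ.pow hN (by
      rw [hN', Nat.mul_div_cancel_left _ hg, mul_comm])
    have heq : comb J' (fun j => (ζ ^ (N / g)) ^ (b j)) V =
        fun i => c * comb J (fun j => ζ ^ (a j)) V i := funext hcomb
    obtain ⟨m, hm, hmle, η, J'', b', c', h1, h2, h3, h4⟩ := ih g (lt_of_le_of_lt hgQ hle) hg
      (ζ ^ (N / g)) hη b J' (by
        rw [heq]
        intro h
        apply hx0
        funext i
        exact (mul_eq_zero.1 (congrFun h i)).resolve_left hc)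
      (by
        intro F hF
        obtain ⟨e, _, he⟩ := hFF F hF
        rw [heq, aeval_hom_smul F he, hxF F hF, mul_zero])
      (by
        obtain ⟨e, he⟩ := hGh
        rw [heq, aeval_hom_smul G he]
        exact mul_ne_zero (pow_ne_zero _ hc) hxG)
    refine ⟨m, hm, hmle, η, J'', b', c' * c, h1, h2.trans hJ, mul_ne_zero h3 hc, fun i => ?_⟩
    rw [h4, hcomb, mul_assoc]

/-- The vector `∑ j, u j V j`. -/
def lin {K L : Type} [Field K] [Field L] [Algebra K L] (u : Fin r → L)
    (V : Fin r → Fin (n + 1) → K) (i : Fin (n + 1)) : L :=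
  ∑ j, u j * algebraMap K L (V j i)

/-- `x` is a nonzero vector of homogeneous coordinates of a point where all the forms in `FF`
vanish and `G` does not. -/
def OnOff {k L : Type} [Field k] [Field L] [Algebra k L]
    (FF : Set (MvPolynomial (Fin (n + 1)) k)) (G : MvPolynomial (Fin (n + 1)) k)
    (x : Fin (n + 1) → L) : Prop :=
  x ≠ 0 ∧ (∀ F ∈ FF, MvPolynomial.aeval x F = 0) ∧ MvPolynomial.aeval x G ≠ 0

/-- finitely many roots of unity in a field are powers of one of them -/
theorem exists_common {L : Type} [Field L] (u : Fin r → L)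
    (hu : ∀ j, u j = 0 ∨ ∃ m : ℕ, 0 < m ∧ u j ^ m = 1) :
    ∃ (N : ℕ) (ζ : L), 0 < N ∧ IsPrimitiveRoot ζ N ∧ ∃ a : Fin r → ℤ, ∀ j, u j ≠ 0 →
      u j = ζ ^ (a j) := by
  classical
  have h1 : ∀ j, ∃ m : ℕ, 0 < m ∧ (u j = 0 ∨ u j ^ m = 1) := by
    intro j
    rcases hu j with h | ⟨m, hm, h⟩
    · exact ⟨1, one_pos, Or.inl h⟩
    · exact ⟨m, hm, Or.inr h⟩
  choose m hm hum using h1
  set M := ∏ j, m j with hM
  have hM0 : 0 < M := Finset.prod_pos fun j _ => hm j
  have : NeZero M := ⟨hM0.ne'⟩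
  obtain ⟨g, hg⟩ := (inferInstance : IsCyclic (rootsOfUnity M L)).exists_generator
  have hfin : 0 < orderOf g := orderOf_pos g
  have hprim : IsPrimitiveRoot ((g : Lˣ) : L) (orderOf g) := by
    have h2 : IsPrimitiveRoot g (orderOf g) := IsPrimitiveRoot.orderOf g
    have h3 : IsPrimitiveRoot (g : Lˣ) (orderOf g) :=
      IsPrimitiveRoot.coe_submonoidClass_iff.2 h2
    exact IsPrimitiveRoot.coe_units_iff.2 h3
  refine ⟨orderOf g, ((g : Lˣ) : L), hfin, hprim, ?_⟩
  have h4 : ∀ j, ∃ a : ℤ, u j ≠ 0 → u j = ((g : Lˣ) : L) ^ a := by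
    intro j
    by_cases hj : u j = 0
    · exact ⟨0, fun h => absurd hj h⟩
    · have h5 : u j ^ M = 1 := by
        obtain ⟨q, hq⟩ := Finset.dvd_prod_of_mem m (Finset.mem_univ j)
        rw [hM, hq, pow_mul, (hum j).resolve_left hj, one_pow]
      have h6 : Units.mk0 (u j) hj ∈ rootsOfUnity M L := by
        rw [mem_rootsOfUnity]
        ext
        simpa using h5
      obtain ⟨a, ha⟩ := hg ⟨Units.mk0 (u j) hj, h6⟩
      refine ⟨a, fun _ => ?_⟩
      have h7 := congrArg (fun z : rootsOfUnity M L => ((z : Lˣ) : L)) ha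
      simpa using h7.symm
  choose a ha using h4
  exact ⟨a, ha⟩

/-- **Points off `G = 0` come from roots of unity of bounded order.** -/
theorem bounded_order {k K L : Type} [Field k] [Field K] [Field L] [Algebra k K] [Algebra K L]
    [Algebra k L] [IsScalarTower k K L]
    (FF : Set (MvPolynomial (Fin (n + 1)) k)) (d : ℕ) (hd : 1 ≤ d)
    (hFF : ∀ F ∈ FF, ∃ e, e ≤ d ∧ F.IsHomogeneous e)
    (G : MvPolynomial (Fin (n + 1)) k) (hGh : ∃ e, G.IsHomogeneous e)
    (hG : ∀ (c : Fin r → Fin (n + 1) → L) (l : Fin r → ℕ),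
        (∀ F ∈ FF, MvPolynomial.aeval (cur c l) F = 0) →
        (∃ i i', cur c l i * Polynomial.C (∑ j, c j i') ≠
          cur c l i' * Polynomial.C (∑ j, c j i)) →
        MvPolynomial.aeval (fun i => ∑ j, c j i) G = 0)
    (D : ℕ) (hK : CycDegree K L D) (V : Fin r → Fin (n + 1) → K) (u : Fin r → L)
    (hu : ∀ j, u j = 0 ∨ ∃ m : ℕ, 0 < m ∧ u j ^ m = 1) (hx : OnOff FF G (lin u V)) :
    ∃ m, 0 < m ∧ m ≤ (9 * r * d * D) ^ (2 * r) ∧ ∃ (w : Fin r → L) (c : L),
      (∀ j, w j = 0 ∨ w j ^ m = 1) ∧ c ≠ 0 ∧ ∀ i, lin w V i = c * lin u V i := by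
  classical
  obtain ⟨N, ζ, hN, hζ, a, ha⟩ := exists_common u hu
  let J : Finset (Fin r) := Finset.univ.filter (fun j => u j ≠ 0)
  have hJ : comb J (fun j => ζ ^ (a j)) V = lin u V := by
    funext i
    unfold comb lin
    rw [← Finset.sum_filter_add_sum_filter_not Finset.univ (fun j => u j ≠ 0)]
    have h1 : ∑ j ∈ Finset.univ.filter (fun j => ¬ u j ≠ 0), u j * algebraMap K L (V j i) = 0 := by
      refine Finset.sum_eq_zero fun j hj => ?_
      rw [Finset.mem_filter, not_not] at hj
      rw [hj.2, zero_mul]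
    rw [h1, add_zero]
    refine Finset.sum_congr rfl fun j hj => ?_
    rw [Finset.mem_filter] at hj
    show ζ ^ (a j) * _ = _
    rw [← ha j hj.2]
  obtain ⟨hx0, hxF, hxG⟩ := hx
  have hr : 1 ≤ r := by
    by_contra h
    have h0 : r = 0 := by omega
    subst h0
    apply hx0
    funext i
    unfold lin
    simp
  have hD : 1 ≤ D := by
    have h1 := hK 1 one_pos 1 (IsPrimitiveRoot.one)
    rw [Nat.totient_one] at h1
    rcases Nat.eq_zero_or_pos D with h | h
    · rw [h, zero_mul] at h1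
      omega
    · exact h
  obtain ⟨m, hm, hmle, η, J', b, c, hη, -, hc, hcomb⟩ := descent FF d hFF G hGh hG D hK V N hN ζ hζ
    a J (by rw [hJ]; exact hx0) (by rw [hJ]; exact hxF) (by rw [hJ]; exact hxG)
  refine ⟨m, hm, numeric r d D m hr hd hD hm hmle, fun j => if j ∈ J' then η ^ (b j) else 0, c,
    fun j => ?_, hc, fun i => ?_⟩
  · by_cases hj : j ∈ J'
    · right
      simp only [if_pos hj]
      rw [← zpow_natCast, zpow_comm, zpow_natCast, hη.pow_eq_one, one_zpow]
    · left
      simp only [if_neg hj]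
  · rw [← hJ, ← hcomb i]
    unfold lin comb
    rw [← Finset.sum_filter_add_sum_filter_not Finset.univ (fun j => j ∈ J'),
      Finset.filter_mem_eq_inter, Finset.univ_inter]
    have h1 : ∑ j ∈ Finset.univ.filter (fun j => j ∉ J'),
        (if j ∈ J' then η ^ (b j) else 0) * algebraMap K L (V j i) = 0 := by
      refine Finset.sum_eq_zero fun j hj => ?_
      rw [Finset.mem_filter] at hj
      rw [if_neg hj.2, zero_mul]
    rw [h1, add_zero]
    refine Finset.sum_congr rfl fun j hj => ?_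
    show (if j ∈ J' then η ^ (b j) else 0) * _ = _
    rw [if_pos hj]

/-- The points of the projective space over `L` where all the forms in `FF` vanish and `G` does not,
with homogeneous coordinates `∑ u j V j`, where each `u j` is a root of unity or zero. -/
def cycPts {k K L : Type} [Field k] [Field K] [Field L] [Algebra k L] [Algebra K L]
    (FF : Set (MvPolynomial (Fin (n + 1)) k)) (G : MvPolynomial (Fin (n + 1)) k)
    (V : Fin r → Fin (n + 1) → K) : Set (Projectivization L (Fin (n + 1) → L)) :=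
  {P | ∃ u : Fin r → L, (∀ j, u j = 0 ∨ ∃ m : ℕ, 0 < m ∧ u j ^ m = 1) ∧
    ∃ h : lin u V ≠ 0, P = Projectivization.mk L (lin u V) h ∧ OnOff FF G (lin u V)}

/-- counting -/
theorem count_of_bounded {k K L : Type} [Field k] [Field K] [Field L] [Algebra k L] [Algebra K L]
    (FF : Set (MvPolynomial (Fin (n + 1)) k)) (G : MvPolynomial (Fin (n + 1)) k)
    (V : Fin r → Fin (n + 1) → K) (M : ℕ)
    (h : ∀ u : Fin r → L, (∀ j, u j = 0 ∨ ∃ m : ℕ, 0 < m ∧ u j ^ m = 1) →
      OnOff FF G (lin u V) → ∃ m, 0 < m ∧ m ≤ M ∧ ∃ (w : Fin r → L) (c : L),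
        (∀ j, w j = 0 ∨ w j ^ m = 1) ∧ c ≠ 0 ∧ ∀ i, lin w V i = c * lin u V i) :
    (cycPts (L := L) FF G V).encard ≤ ((M + 1) ^ (r + 1) : ℕ) := by
  classical
  let W : Finset (Fin r → L) := (Finset.Icc 1 M).biUnion fun m =>
    Fintype.piFinset fun _ => insert 0 (Polynomial.nthRootsFinset m (1 : L))
  have hW : W.card ≤ (M + 1) ^ (r + 1) := by
    refine Finset.card_biUnion_le.trans ?_
    have h1 : ∀ m ∈ Finset.Icc 1 M, (Fintype.piFinset fun _ : Fin r =>
        insert (0 : L) (Polynomial.nthRootsFinset m (1 : L))).card ≤ (M + 1) ^ r := by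
      intro m hm
      rw [Finset.mem_Icc] at hm
      rw [Fintype.card_piFinset, Finset.prod_const, Finset.card_univ, Fintype.card_fin]
      refine Nat.pow_le_pow_left ((Finset.card_insert_le _ _).trans ?_) r
      have h2 : (Polynomial.nthRootsFinset m (1 : L)).card ≤ m := by
        rw [Polynomial.nthRootsFinset_def]
        exact (Multiset.toFinset_card_le _).trans (Polynomial.card_nthRoots m 1)
      omega
    refine (Finset.sum_le_sum h1).trans ?_
    rw [Finset.sum_const, Nat.card_Icc, smul_eq_mul, pow_succ, mul_comm]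
    exact Nat.mul_le_mul_left _ (by omega)
  rcases (cycPts (L := L) FF G V).eq_empty_or_nonempty with he | ⟨P0, hP0⟩
  · rw [he, Set.encard_empty]
    exact bot_le
  let f : (Fin r → L) → Projectivization L (Fin (n + 1) → L) := fun w =>
    if h : lin w V ≠ 0 then Projectivization.mk L (lin w V) h else P0
  have hsub : cycPts (L := L) FF G V ⊆ f '' (W : Set (Fin r → L)) := by
    rintro P ⟨u, hu, h0, rfl, hx⟩
    obtain ⟨m, hm, hmM, w, c, hw, hc, hcw⟩ := h u hu hx
    have heq : lin w V = c • lin u V := funext fun i => hcw i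
    have hw0 : lin w V ≠ 0 := by
      rw [heq]
      exact smul_ne_zero hc h0
    refine ⟨w, ?_, ?_⟩
    · rw [Finset.mem_coe, Finset.mem_biUnion]
      refine ⟨m, Finset.mem_Icc.2 ⟨hm, hmM⟩, ?_⟩
      rw [Fintype.mem_piFinset]
      intro j
      rw [Finset.mem_insert, Polynomial.mem_nthRootsFinset hm]
      exact hw j
    · simp only [f, dif_pos hw0]
      rw [Projectivization.mk_eq_mk_iff']
      exact ⟨c, heq.symm⟩
  refine (Set.encard_le_encard hsub).trans ((Set.encard_image_le _ _).trans ?_)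
  rw [Set.encard_coe_eq_coe_finsetCard]
  exact_mod_cast hW

end Pool.Agent.Q34.CL
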