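import Mathlib
import Pool.Agent.Q34.CL.Desc
import Pool.Agent.Helper781.CycHouse.Loxton
import Pool.Agent.TH409.SH.Conv

set_option autoImplicit false

/-! # Cyclotomic points: integers of bounded house, and the converse for uniruled varieties -/

namespace Pool.Agent.Q34.CL

open Finset Pool.Agent.H533R3.SL

variable {n r : ℕ}

/-- `α` is a cyclotomic integer all of whose conjugates have absolute value at most `B`. -/
def CycHouse (B : ℝ) (α : ℂ) : Prop :=
  ∃ (N : ℕ) (f : Polynomial ℤ) (z : ℂ), 0 < N ∧ IsPrimitiveRoot z N ∧ Polynomial.aeval z f = α ∧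
    ∀ w : ℂ, IsPrimitiveRoot w N → ‖Polynomial.aeval w f‖ ≤ B

/-- The points of the complex projective space where all the forms in `FF` vanish and `G` does not,
with homogeneous coordinates which are cyclotomic integers with all conjugates of absolute value
at most `B`. -/
def housePts {k : Type} [Field k] [Algebra k ℂ] (FF : Set (MvPolynomial (Fin (n + 1)) k))
    (G : MvPolynomial (Fin (n + 1)) k) (B : ℝ) : Set (Projectivization ℂ (Fin (n + 1) → ℂ)) :=
  {P | ∃ (x : Fin (n + 1) → ℂ) (h : x ≠ 0), P = Projectivization.mk ℂ x h ∧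
    (∀ i, CycHouse B (x i)) ∧ OnOff FF G x}

theorem len_fun (Λ : ℕ) : ∀ s : Multiset ℂ, s.card ≤ Λ →
    (∀ z ∈ s, ∃ m : ℕ, 0 < m ∧ z ^ m = 1) →
    ∃ u : Fin Λ → ℂ, (∀ l, u l = 0 ∨ ∃ m : ℕ, 0 < m ∧ u l ^ m = 1) ∧ ∑ l, u l = s.sum := by
  induction Λ with
  | zero =>
    intro s hs _
    have : s = 0 := Multiset.card_eq_zero.1 (by omega)
    subst this
    exact ⟨fun _ => 0, fun _ => Or.inl rfl, by simp⟩
  | succ Λ ih =>
    intro s hs h
    induction s using Multiset.induction_on with
    | empty => exact ⟨fun _ => 0, fun _ => Or.inl rfl, by simp⟩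
    | cons a t _ =>
      rw [Multiset.card_cons] at hs
      obtain ⟨u, hu, hsum⟩ := ih t (by omega) (fun z hz => h z (Multiset.mem_cons_of_mem hz))
      refine ⟨Fin.cons a u, fun l => ?_, ?_⟩
      · refine Fin.cases ?_ (fun l => ?_) l
        · right
          simpa using h a (Multiset.mem_cons_self a t)
        · simpa using hu l
      · rw [Fin.sum_univ_succ]
        simp [hsum]

theorem exists_length (B : ℝ) : ∃ Λ : ℕ, ∀ α : ℂ, CycHouse B α →
    ∃ u : Fin Λ → ℂ, (∀ l, u l = 0 ∨ ∃ m : ℕ, 0 < m ∧ u l ^ m = 1) ∧ ∑ l, u l = α := by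
  obtain ⟨Λ, hΛ⟩ := Pool.Agent.Helper781.CycHouse.loxton ⌈2 * B ^ 2⌉₊
  refine ⟨Λ, ?_⟩
  rintro α ⟨N, f, z, hN, hz, rfl, hB⟩
  have hmean : Pool.Agent.Helper781.CycHouse.mean N f ≤ (⌈2 * B ^ 2⌉₊ : ℝ) / 2 := by
    unfold Pool.Agent.Helper781.CycHouse.mean
    have hφ : (0 : ℝ) < N.totient := by exact_mod_cast Nat.totient_pos.2 hN
    have h1 : ∑ z ∈ primitiveRoots N ℂ, ‖Polynomial.aeval z f‖ ^ 2 ≤ N.totient * B ^ 2 := by
      rw [← Pool.Agent.Helper781.CycHouse.prim_card N, ← nsmul_eq_mul, ← Finset.sum_const]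
      refine Finset.sum_le_sum fun w hw => ?_
      rw [mem_primitiveRoots hN] at hw
      exact pow_le_pow_left₀ (norm_nonneg _) (hB w hw) 2
    rw [div_le_div_iff₀ hφ two_pos]
    have h2 : 2 * B ^ 2 ≤ (⌈2 * B ^ 2⌉₊ : ℝ) := Nat.le_ceil _
    nlinarith
  obtain ⟨s, h1, h2, h3⟩ := hΛ N hN f hmean z hz
  obtain ⟨u, hu, hsum⟩ := len_fun Λ s h1 h2
  exact ⟨u, hu, hsum.trans h3⟩

/-- the standard basis vectors, each one repeated `Λ` times -/
def base (k : Type) [Field k] (n Λ : ℕ) (j : Fin ((n + 1) * Λ)) (i : Fin (n + 1)) : k :=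
  if (finProdFinEquiv.symm j).1 = i then 1 else 0

theorem lin_base {k : Type} [Field k] [Algebra k ℂ] (Λ : ℕ) (v : Fin (n + 1) → Fin Λ → ℂ) :
    lin (fun j => v (finProdFinEquiv.symm j).1 (finProdFinEquiv.symm j).2) (base k n Λ) =
      fun i => ∑ l, v i l := by
  funext i
  unfold lin base
  rw [← Equiv.sum_comp finProdFinEquiv]
  simp only [Equiv.symm_apply_apply]
  rw [Fintype.sum_prod_type]
  rw [Finset.sum_eq_single i]
  · simp
  · intro b _ hb
    simp [hb]
  · intro h
    exact absurd (Finset.mem_univ i) h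

/-- the points with cyclotomic integers as coordinates -/
theorem house_sub (B : ℝ) : ∃ Λ : ℕ, ∀ (k : Type) [Field k] [Algebra k ℂ] (n : ℕ)
    (FF : Set (MvPolynomial (Fin (n + 1)) k)) (G : MvPolynomial (Fin (n + 1)) k),
    housePts FF G B ⊆ cycPts (L := ℂ) FF G (base k n Λ) := by
  obtain ⟨Λ, hΛ⟩ := exists_length B
  refine ⟨Λ, ?_⟩
  rintro k _ _ n FF G P ⟨x, h, rfl, hx, hon⟩
  choose v hv hsum using fun i => hΛ (x i) (hx i)
  have heq : lin (fun j => v (finProdFinEquiv.symm j).1 (finProdFinEquiv.symm j).2)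
      (base k n Λ) = x := by
    rw [lin_base]
    exact funext hsum
  refine ⟨fun j => v (finProdFinEquiv.symm j).1 (finProdFinEquiv.symm j).2,
    fun j => hv _ _, ?_⟩
  have h' : lin (fun j => v (finProdFinEquiv.symm j).1 (finProdFinEquiv.symm j).2)
      (base k n Λ) ≠ 0 := by
    rw [heq]
    exact h
  refine ⟨h', ?_, ?_⟩
  · rw [Projectivization.mk_eq_mk_iff']
    exact ⟨1, by rw [one_smul, heq]⟩
  · rw [heq]
    exact hon

/-- infinitely many points on a curve at roots of unity -/
theorem curve_infinite {k K C : Type} [Field k] [Field K] [Field C] [Algebra k K] [Algebra K C]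
    [Algebra k C] [IsScalarTower k K C] [IsAlgClosed C] [CharZero C] [Infinite K]
    (FF : Set (MvPolynomial (Fin (n + 1)) k)) (G : MvPolynomial (Fin (n + 1)) k) (N : ℕ)
    (w : Fin N → Fin (n + 1) → K)
    (h1 : ∀ F ∈ FF, MvPolynomial.aeval (cur w (fun j => (j : ℕ))) F = 0)
    (h2 : ∃ i j, cur w (fun j => (j : ℕ)) i * Polynomial.C ((cur w (fun j => (j : ℕ)) j).eval 1) ≠
        cur w (fun j => (j : ℕ)) j * Polynomial.C ((cur w (fun j => (j : ℕ)) i).eval 1))
    (h3 : MvPolynomial.aeval (fun i => (cur w (fun j => (j : ℕ)) i).eval 1) G ≠ 0) :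
    (cycPts (L := C) FF G w).Infinite := by
  classical
  let q : Fin (n + 1) → Polynomial K := cur w (fun j => (j : ℕ))
  -- evaluation at elements of the algebraic closure
  have hevG : ∀ (F : MvPolynomial (Fin (n + 1)) k) (t : C),
      Polynomial.aeval t (MvPolynomial.aeval q F) =
      MvPolynomial.aeval (fun i => Polynomial.aeval t (q i)) F := by
    intro F t
    exact MvPolynomial.comp_aeval_apply (R := k) q
      ((Polynomial.aeval t : Polynomial K →ₐ[K] C).restrictScalars k) F
  have hlin : ∀ t : C, lin (fun j : Fin N => t ^ (j : ℕ)) w =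
      fun i => Polynomial.aeval t (q i) := by
    intro t
    funext i
    unfold lin
    show _ = Polynomial.aeval t (cur w (fun j : Fin N => (j : ℕ)) i)
    unfold cur
    rw [map_sum]
    refine Finset.sum_congr rfl fun j _ => ?_
    rw [map_mul, Polynomial.aeval_C, map_pow, Polynomial.aeval_X, mul_comm]
  intro hfin
  have hG0 : MvPolynomial.aeval q G ≠ 0 := by
    intro h
    apply h3
    have h4 : (MvPolynomial.aeval q G).eval 1 =
        MvPolynomial.aeval (fun i => (q i).eval 1) G :=
      MvPolynomial.comp_aeval_apply (R := k) q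
        ((Polynomial.aeval 1 : Polynomial K →ₐ[K] K).restrictScalars k) G
    rw [h, Polynomial.eval_zero] at h4
    exact h4.symm
  obtain ⟨i1, i2, a, b, hab⟩ := Pool.Agent.TH409.SH.nonconst_of q h2
  have hq0 : q i1 ≠ 0 ∨ q i2 ≠ 0 := by
    by_contra h
    push Not at h
    apply hab
    rw [h.1, h.2]
  -- the roots of unity
  let μ : Set C := {t | ∃ m : ℕ, 0 < m ∧ t ^ m = 1}
  have hμinf : μ.Infinite := by
    intro hμ
    have h5 : ∀ m : ℕ, 0 < m → m ≤ hμ.toFinset.card := by
      intro m hm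
      have : NeZero (m : C) := ⟨by exact_mod_cast hm.ne'⟩
      obtain ⟨ζ, hζ⟩ := HasEnoughRootsOfUnity.exists_primitiveRoot C m
      have h6 : (Polynomial.nthRootsFinset m (1 : C)).card = m := hζ.card_nthRootsFinset
      rw [← h6]
      refine Finset.card_le_card fun t ht => ?_
      rw [Polynomial.mem_nthRootsFinset hm] at ht
      rw [Set.Finite.mem_toFinset]
      exact ⟨m, hm, ht⟩
    have := h5 (hμ.toFinset.card + 1) (by omega)
    omega
  let Q : Polynomial K := MvPolynomial.aeval q G * (if q i1 = 0 then q i2 else q i1)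
  have hQ : Q ≠ 0 := by
    refine mul_ne_zero hG0 ?_
    split_ifs with h
    · rcases hq0 with h' | h'
      · exact absurd h h'
      · exact h'
    · exact h
  let good : Set C := {t | t ∈ μ ∧ Polynomial.aeval t Q ≠ 0}
  have hginf : good.Infinite := by
    have h5 : (μ ∩ {t | Polynomial.aeval t Q = 0}).Finite := by
      refine ((Q.aroots C).toFinset.finite_toSet).subset ?_
      rintro t ⟨_, ht⟩
      rw [Finset.mem_coe, Multiset.mem_toFinset, Polynomial.mem_aroots]
      exact ⟨hQ, ht⟩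
    have h6 : good = μ \ (μ ∩ {t | Polynomial.aeval t Q = 0}) := by
      ext t
      simp only [good, Set.mem_sdiff, Set.mem_inter_iff, Set.mem_ofPred_eq]
      tauto
    rw [h6]
    exact hμinf.sdiff h5
  have hgne : ∀ t ∈ good, lin (fun j : Fin N => t ^ (j : ℕ)) w ≠ 0 := by
    rintro t ⟨_, ht⟩ h0
    apply ht
    show Polynomial.aeval t (MvPolynomial.aeval q G * (if q i1 = 0 then q i2 else q i1)) = 0
    rw [hlin] at h0
    rw [map_mul]
    have h5 : ∀ i, Polynomial.aeval t (q i) = 0 := fun i => congrFun h0 i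
    split_ifs
    · rw [h5, mul_zero]
    · rw [h5, mul_zero]
  have hgG : ∀ t ∈ good, MvPolynomial.aeval (lin (fun j : Fin N => t ^ (j : ℕ)) w) G ≠ 0 := by
    rintro t ⟨_, ht⟩ h0
    apply ht
    show Polynomial.aeval t (MvPolynomial.aeval q G * (if q i1 = 0 then q i2 else q i1)) = 0
    rw [hlin] at h0
    rw [map_mul, hevG, h0, zero_mul]
  let pt : C → Projectivization C (Fin (n + 1) → C) := fun t =>
    if h : lin (fun j : Fin N => t ^ (j : ℕ)) w ≠ 0 then Projectivization.mk C _ h
    else Projectivization.mk C (fun _ => 1) (fun h => one_ne_zero (congrFun h 0))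
  have hpt : ∀ t ∈ good, pt t ∈ cycPts (L := C) FF G w := by
    intro t ht
    refine ⟨fun j : Fin N => t ^ (j : ℕ), fun j => Or.inr ?_, hgne t ht, ?_, hgne t ht, ?_,
      hgG t ht⟩
    · obtain ⟨⟨m, hm, htm⟩, _⟩ := ht
      exact ⟨m, hm, by rw [← pow_mul, mul_comm, pow_mul, htm, one_pow]⟩
    · simp only [pt, dif_pos (hgne t ht)]
    · intro F hF
      rw [hlin, ← hevG, h1 F hF, map_zero]
  obtain ⟨P, -, hP⟩ : ∃ P ∈ cycPts (L := C) FF G w, (good ∩ pt ⁻¹' {P}).Infinite := by
    by_contra hcon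
    push Not at hcon
    apply hginf
    have h6 : good ⊆ ⋃ P ∈ cycPts (L := C) FF G w, good ∩ pt ⁻¹' {P} := by
      intro m hm
      exact Set.mem_biUnion (hpt m hm) ⟨hm, rfl⟩
    exact (Set.Finite.biUnion hfin fun P hP => Set.not_infinite.1 (by
      intro h7
      exact absurd h7 (by simpa using hcon P hP))).subset h6
  obtain ⟨t0, ht0, ht0P⟩ := hP.nonempty
  have hrel : ∀ i j, (q i).map (algebraMap K C) * Polynomial.C (Polynomial.aeval t0 (q j)) =
      (q j).map (algebraMap K C) * Polynomial.C (Polynomial.aeval t0 (q i)) := by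
    intro i j
    rw [← sub_eq_zero]
    refine Polynomial.eq_zero_of_infinite_isRoot _ ?_
    refine Set.Infinite.mono ?_ hP
    rintro t ⟨ht, htP⟩
    have h8 : pt t = pt t0 := by
      rw [show pt t = P from htP, show pt t0 = P from ht0P]
    simp only [pt, dif_pos (hgne t ht), dif_pos (hgne t0 ht0)] at h8
    rw [Projectivization.mk_eq_mk_iff'] at h8
    obtain ⟨c, hc⟩ := h8
    rw [hlin, hlin] at hc
    have hci : ∀ i, c * Polynomial.aeval t0 (q i) = Polynomial.aeval t (q i) := fun i =>
      congrFun hc i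
    show ((q i).map (algebraMap K C) * Polynomial.C (Polynomial.aeval t0 (q j)) -
      (q j).map (algebraMap K C) * Polynomial.C (Polynomial.aeval t0 (q i))).eval t = 0
    rw [Polynomial.eval_sub, Polynomial.eval_mul, Polynomial.eval_mul, Polynomial.eval_C,
      Polynomial.eval_C, Polynomial.eval_map_algebraMap, Polynomial.eval_map_algebraMap,
      ← hci i, ← hci j]
    ring
  obtain ⟨i0, hi0⟩ : ∃ i, Polynomial.aeval t0 (q i) ≠ 0 := by
    by_contra h
    push Not at h
    apply hgne t0 ht0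
    rw [hlin]
    exact funext h
  apply hab
  apply (algebraMap K C).injective
  have hmap : ∀ (f : Polynomial K) (c : K), (f.map (algebraMap K C)).eval (algebraMap K C c) =
      algebraMap K C (f.eval c) := by
    intro f c
    rw [Polynomial.eval_map_algebraMap, Polynomial.aeval_algebraMap_apply]
    rfl
  have e1 := congrArg (Polynomial.eval (algebraMap K C a)) (hrel i1 i0)
  have e2 := congrArg (Polynomial.eval (algebraMap K C b)) (hrel i2 i0)
  have e3 := congrArg (Polynomial.eval (algebraMap K C a)) (hrel i2 i0)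
  have e4 := congrArg (Polynomial.eval (algebraMap K C b)) (hrel i1 i0)
  simp only [Polynomial.eval_mul, Polynomial.eval_C, hmap] at e1 e2 e3 e4
  rw [map_mul, map_mul]
  have hne2 : Polynomial.aeval t0 (q i0) * Polynomial.aeval t0 (q i0) ≠ 0 := mul_ne_zero hi0 hi0
  apply mul_right_cancel₀ hne2
  linear_combination (algebraMap K C ((q i2).eval b) * Polynomial.aeval t0 (q i0)) * e1 +
    (algebraMap K C ((q i0).eval a) * Polynomial.aeval t0 (q i1)) * e2 -
    (algebraMap K C ((q i1).eval b) * Polynomial.aeval t0 (q i0)) * e3 -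
    (algebraMap K C ((q i0).eval a) * Polynomial.aeval t0 (q i2)) * e4

/-- the converse for uniruled varieties -/
theorem converse {k : Type} [Field k] [NumberField k] (FF : Set (MvPolynomial (Fin (n + 1)) k))
    (hu : Uniruled (Ideal.span FF)) :
    ∃ r : ℕ, ∀ G : MvPolynomial (Fin (n + 1)) k, (∃ e, G.IsHomogeneous e) →
      G ∉ Ideal.span FF →
      ∃ (K : Type) (_ : Field K) (_ : NumberField K) (_ : Algebra k K)
        (V : Fin r → Fin (n + 1) → K),
        (cycPts (L := AlgebraicClosure K) FF G V).Infinite := by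
  classical
  obtain ⟨L, iL, iA, p, hp1, hp2, hp3⟩ := hu
  set N : ℕ := Finset.univ.sup (fun i => (p i).natDegree) + 1 with hN
  have hNc : ∀ i m, N ≤ m → (p i).coeff m = 0 := by
    intro i m hm
    apply Polynomial.coeff_eq_zero_of_natDegree_lt
    have := Finset.le_sup (f := fun i => (p i).natDegree) (Finset.mem_univ i)
    omega
  refine ⟨N, ?_⟩
  intro G hG1 hG2
  obtain ⟨K, iK, iN, iAK, w, h1, h2, h3⟩ := Pool.Agent.TH409.SH.specialise k L p FF (by
      intro F hF
      exact hp1 F (Ideal.subset_span hF)) N hNc hp3 G (hp2 G hG1 hG2)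
  have hcz : CharZero (AlgebraicClosure K) :=
    charZero_of_injective_algebraMap (algebraMap K (AlgebraicClosure K)).injective
  exact ⟨K, iK, iN, iAK, w, curve_infinite FF G N w h1 h2 h3⟩

end Pool.Agent.Q34.CL
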